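import Pool.Agent.H798.BV.Stm5

set_option autoImplicit false

/-! (EE2): the lower bound with free parameters and a bound for the big part, from (EB), (ET), (EC),
(ED2). After `Pool.Agent.H788.BV.Ee` (helper788). -/

namespace Pool.Agent.H945.BV

open Pool.Agent.H798.BV

theorem ee_cont (m : ℕ) (l : Fin m → ℂ) :
    Continuous (fun t : ℝ => ∏ k, (1 - ((t / m : ℝ) : ℂ) * l k)) := by
  refine continuous_finsetProd _ fun k _ => ?_
  have h : Continuous fun t : ℝ => ((t / m : ℝ) : ℂ) :=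
    Complex.continuous_ofReal.comp (continuous_id.div_const _)
  exact continuous_const.sub (h.mul continuous_const)

/-- the substitution `u = t / m` -/
theorem ee_subst (m : ℕ) (hm : 1 ≤ m) (l : Fin m → ℂ) (a : ℝ) :
    ∫ t in (0:ℝ)..(a * m), ∏ k, (1 - ((t / m : ℝ) : ℂ) * l k) =
      (m : ℝ) • ∫ u in (0:ℝ)..a, ∏ k, (1 - (u : ℂ) * l k) := by
  have hm0 : (m : ℝ) ≠ 0 := by
    have : 0 < m := hm
    positivity
  have h := intervalIntegral.integral_comp_div (a := (0:ℝ)) (b := a * m)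
    (f := fun u : ℝ => ∏ k, (1 - (u : ℂ) * l k)) (c := (m : ℝ)) hm0
  rw [zero_div, mul_div_cancel_right₀ a hm0] at h
  exact h

theorem t_EE2 (h1 : S_EB) (h2 : S_ET) (h3 : S_EC) (h4 : S_ED2) : S_EE2 := by
  intro m l a δ η T b hm ha ha1 hδ hη hT hηT hηT2 hTm hηδm hl hla hb
  have hmR : (1 : ℝ) ≤ m := by exact_mod_cast hm
  have hm0 : (0 : ℝ) < m := by linarith
  obtain ⟨hδa, hB1, hB2⟩ := h1 m l a δ η hm ha ha1 hδ hη hηδm hl hla
  have hTa : T ≤ a * m := hTm.trans (mul_le_mul_of_nonneg_right hδa (by linarith))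
  obtain ⟨-, ht⟩ := h2 m l a δ hm ha ha1 hδ hla
  have ht1 := ht T hT hTa
  have hc := h3 m l δ η T hm hδ hη hT hηT hηT2 hl hB1
  have hsum : ∑ k ∈ Finset.univ.filter (fun k => η * m < ‖l k‖), ‖l k / m‖ =
      (∑ k ∈ Finset.univ.filter (fun k => η * m < ‖l k‖), ‖l k‖) / m := by
    rw [Finset.sum_div]
    refine Finset.sum_congr rfl fun k _ => ?_
    rw [norm_div, Complex.norm_natCast]
  have hd := h4 m (fun k => l k / m) (Finset.univ.filter (fun k => η * m < ‖l k‖))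
    ((∑ k ∈ Finset.univ.filter (fun k => ¬ η * m < ‖l k‖), l k) / m) δ T b hδ hT (by
      rw [hsum]
      exact hB1) hB2 (by
      rw [hsum, div_le_iff₀ hm0]
      exact hb)
  have hsplit : (∫ t in (0:ℝ)..(a * m), ∏ k, (1 - ((t / m : ℝ) : ℂ) * l k)) =
      (∫ t in (0:ℝ)..T, ∏ k, (1 - ((t / m : ℝ) : ℂ) * l k)) +
      ∫ t in T..(a * m), ∏ k, (1 - ((t / m : ℝ) : ℂ) * l k) :=
    (intervalIntegral.integral_add_adjacent_intervals ((ee_cont m l).intervalIntegrable _ _)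
      ((ee_cont m l).intervalIntegrable _ _)).symm
  have hsub := ee_subst m hm l a
  have hJ : ‖∫ t in (0:ℝ)..(a * m), ∏ k, (1 - ((t / m : ℝ) : ℂ) * l k)‖ ≤
      ‖((m : ℂ) + 1) * ∫ u in (0:ℝ)..a, ∏ k, (1 - (u : ℂ) * l k)‖ := by
    rw [hsub, norm_smul, norm_mul, Real.norm_natCast]
    refine mul_le_mul_of_nonneg_right ?_ (norm_nonneg _)
    have h5 : ((m : ℂ) + 1) = ((m + 1 : ℕ) : ℂ) := by push_cast; ring
    rw [h5, Complex.norm_natCast]
    push_cast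
    linarith
  refine le_trans ?_ hJ
  rw [hsplit]
  have he : Real.exp (-(δ * T)) / δ ≤ 1 / δ * Real.exp (-(δ * T / 2)) := by
    rw [div_eq_mul_one_div, mul_comm]
    refine mul_le_mul_of_nonneg_left (Real.exp_le_exp.2 ?_) (by positivity)
    have : 0 ≤ δ * T := mul_nonneg hδ.le hT
    linarith
  have hn1 := norm_sub_le_norm_add
    (∫ t in (0:ℝ)..T, ∏ k, (1 - ((t / m : ℝ) : ℂ) * l k))
    (∫ t in T..(a * m), ∏ k, (1 - ((t / m : ℝ) : ℂ) * l k))
  have hn2 := norm_sub_norm_le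
    (∫ t in (0:ℝ)..T, (∏ k ∈ Finset.univ.filter (fun k => η * m < ‖l k‖),
        (1 - (t : ℂ) * (l k / m))) * Complex.exp (-((t : ℂ) *
        ((∑ k ∈ Finset.univ.filter (fun k => ¬ η * m < ‖l k‖), l k) / m))))
    (∫ t in (0:ℝ)..T, ∏ k, (1 - ((t / m : ℝ) : ℂ) * l k))
  rw [norm_sub_rev] at hc
  have hfin : 1 - 2 * b / δ - 4 * η * T ^ 2 / δ - 3 / δ * Real.exp (-(δ * T / 2)) =
      (1 - 2 * b / δ - 2 / δ * Real.exp (-(δ * T / 2))) - 4 * η * T ^ 2 / δ -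
        1 / δ * Real.exp (-(δ * T / 2)) := by ring
  rw [hfin]
  linarith

end Pool.Agent.H945.BV
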